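import Pool.Agent.helper95.SP.SpecCH

/-!
# Project sp, part CH, module GB: gluing of two blocks which are standard at both ends
-/

namespace TP.K

open DP MeasureTheory

theorem GB_sd_zpt (x : V) (r l : ℕ) : sd x (zpt x r l) = r := by
  unfold zpt sd
  split_ifs <;> simp

theorem GB_ok (x : V) (a i : ℕ) (h : a + 1 ≤ i) : (Dmark 4 x (2 ^ a)).ok true x (2 ^ i) := by
  have h1 : 2 * 2 ^ a ≤ 2 ^ i := by
    calc 2 * 2 ^ a = 2 ^ (a + 1) := by ring
      _ ≤ 2 ^ i := Nat.pow_le_pow_right (by norm_num) h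
  unfold Dat.ok Dmark
  rw [if_pos rfl]
  constructor
  · intro l p hp
    have h2 : sd x p = 2 ^ a := hp.1
    change sd x p ≤ 2 ^ i
    omega
  · rintro k v (hv | ⟨l, -, -, hv⟩)
    · have h2 : sd x v < 2 ^ a := hv
      change sd x v ≤ 2 ^ i
      omega
    · have h2 := sd_triangle x (zpt x (2 ^ a) l) v
      rw [GB_sd_zpt] at h2
      change sd x v ≤ 2 ^ i
      omega

theorem GB (hGZ : GZ_stmt) : GB_stmt := by
  obtain ⟨c₄, hc₄, i₁, h⟩ := hGZ
  refine ⟨c₄, hc₄, i₁, ?_⟩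
  intro x Z W a i n hx ha hai hin hZ hW hZ0 hW0
  exact h x (Dmark 4 x (2 ^ a)) Z W i n hx (by omega) hin (GB_ok x a i hai) hZ hW hZ0 hW0

end TP.K
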